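import Pool.Agent.X235.Pair.Route

/-!
MP_74cbe5_co, Q1 (negative answer): there are path-pairable graphs with `n` vertices, at most
`(2 - 1/8) n` edges and arbitrarily large diameter.
-/

namespace Pool.Agent.Results.MP_74cbe5_co.SparseLargeDiameter

open Pool.Agent.X235.Pair

variable {L r S D : ℕ}

theorem adj_reach {x y : Vx L r S} (h : E D x y) : (graph L r S D).Reachable x y :=
  SimpleGraph.Adj.reachable (Or.inl h)

theorem reach (hS : S = 2 ^ (D + 1)) (v : Vx L r S) : (graph L r S D).Reachable .a v := by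
  have hD : 0 < 2 ^ D := by positivity
  have hSD : S = 2 * 2 ^ D := by rw [hS, pow_succ]; ring
  rcases v with _ | i | ⟨c, b⟩ | ⟨w, hw⟩
  · exact SimpleGraph.Reachable.refl _
  · exact adj_reach trivial
  · exact adj_reach trivial
  · rcases Nat.lt_or_ge w (2 ^ D) with h | h
    · rcases Nat.eq_zero_or_pos w with rfl | h0
      · have h1 : E D (.a : Vx L r S) (.tl ⟨2 ^ D, by omega⟩) := by
          show 2 ^ D ≤ 2 ^ D; exact le_rfl
        have h2 : E D (.tl ⟨0, hw⟩ : Vx L r S) (.tl ⟨2 ^ D, by omega⟩) := by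
          left; exact ⟨rfl, le_rfl⟩
        exact (adj_reach h1).trans (adj_reach h2).symm
      · have h1 : Nat.log 2 w < D := Nat.log_lt_of_lt_pow (by omega) h
        have h2 := lane_lt hS h le_rfl
        obtain ⟨P, _⟩ := lane (L := L) (r := r) (p := id) (idx := fun _ => (0 : Fin 1))
          (f := fun _ => .a) hS (by omega) hw (D - (Nat.log 2 w + 1)) (by omega)
          (by rw [show Nat.log 2 w + 1 + (D - (Nat.log 2 w + 1)) = D by omega]; exact h2)
        refine (SimpleGraph.Reachable.trans (adj_reach ?_) P.reachable.symm)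
        show 2 ^ D ≤ 2 ^ (Nat.log 2 w + 1 + (D - (Nat.log 2 w + 1))) + w
        rw [show Nat.log 2 w + 1 + (D - (Nat.log 2 w + 1)) = D by omega]
        omega
    · exact adj_reach h

theorem result : ∀ d : ℕ, ∃ (V : Type) (_ : Fintype V) (G : SimpleGraph V),
    Even (Fintype.card V) ∧ PathPairable G ∧ G.Connected ∧
    (G.edgeSet.ncard : ℝ) ≤ (2 - 1 / 8) * Fintype.card V ∧ ∃ u v, d ≤ G.dist u v := by
  intro d
  obtain ⟨S, hS⟩ : ∃ S, S = 2 ^ (d + 1) := ⟨_, rfl⟩
  have hS2 : 2 ≤ S := by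
    rw [hS, pow_succ]
    have : 0 < 2 ^ d := by positivity
    omega
  have hSe : Even S := by rw [hS, pow_succ]; exact ⟨2 ^ d, by ring⟩
  obtain ⟨r, hr⟩ : ∃ r, r = 2 * S * S + 12 * S := ⟨_, rfl⟩
  have hr2 : 6 * S + 1 ≤ 2 * r := by rw [hr]; nlinarith
  obtain ⟨L, hL⟩ : ∃ L, L + 1 + 6 * S = 2 * r := ⟨2 * r - 6 * S - 1, by omega⟩
  have hconn : (graph L r S d).Connected := by
    have : Nonempty (Vx L r S) := ⟨.a⟩
    exact ⟨fun x y => (reach hS x).symm.trans (reach hS y)⟩
  refine ⟨Vx L r S, inferInstance, graph L r S d, ?_, pathPairable hS (by omega), hconn, ?_,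
    .tl ⟨1, by omega⟩, .a, ?_⟩
  · rw [card_Vx]
    obtain ⟨a, ha⟩ := hSe
    exact ⟨2 * r - 5 * a, by omega⟩
  · have h1 := edges_le (L := L) (r := r) (S := S) (D := d) (by omega)
    rw [card_Vx]
    have h2 : ((graph L r S d).edgeSet.ncard : ℝ) ≤ ((L + 5 * r + S + S * S : ℕ) : ℝ) := by
      exact_mod_cast h1
    refine h2.trans ?_
    have h3 : (L : ℝ) = 2 * r - 6 * S - 1 := by
      have : ((L + 1 + 6 * S : ℕ) : ℝ) = ((2 * r : ℕ) : ℝ) := by rw [hL]
      push_cast at this
      linarith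
    have h4 : (r : ℝ) = 2 * S * S + 12 * S := by
      rw [hr]; push_cast; ring
    push_cast
    rw [h3, h4]
    have h5 : (0 : ℝ) ≤ S := Nat.cast_nonneg _
    nlinarith
  · obtain ⟨P, hP⟩ := (hconn.preconnected (.tl ⟨1, by omega⟩) .a).exists_walk_length_eq_dist
    have h1 := lev_walk hS P
    rw [hP] at h1
    simp only [lev, one_ne_zero, if_false, Nat.log_one_right] at h1
    omega

end Pool.Agent.Results.MP_74cbe5_co.SparseLargeDiameter
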